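import Pool.Agent.Helper480.E25.F
import Pool.Agent.P2Gap.Base
import Pool.Agent.Helper923.HMertens

/-!
# The number of primes dividing `a b (a + b)` for pairs in a box

The inequality of Turán for the three members of a triple: in the square `[1, Y] ^ 2` at most
`C Y ^ 2 / T ^ 2` pairs have `|ω(a) + ω(b) + ω(a + b) - 3 log log Y| > T √(1 + log log Y)`.
-/

set_option autoImplicit false

open Filter Topology Finset

namespace Pool.Agent.V8H4.SH

/-- the primes up to `N` -/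
def PN (N : ℕ) : Finset ℕ := (Icc 1 N).filter Nat.Prime

theorem mertens : ∃ C : ℝ, 0 ≤ C ∧ ∀ N : ℕ, 2 ≤ N →
    |∑ p ∈ PN N, (1 : ℝ) / p - Real.log (Real.log N)| ≤ C := by
  obtain ⟨C, hC⟩ := Pool.Agent.P2Gap.Base.inv_bounds Pool.Agent.Helper923.HMertens.mertens_ratio
  refine ⟨max C 0, le_max_right _ _, fun N hN => ?_⟩
  have h := hC N hN
  have e : Pool.Agent.P2Gap.pr 0 N = PN N := by
    ext p
    simp only [Pool.Agent.P2Gap.pr, PN, mem_filter, mem_Ioc, mem_Icc]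
    constructor
    · rintro ⟨⟨h1, h2⟩, h3⟩; exact ⟨⟨h1, h2⟩, h3⟩
    · rintro ⟨⟨h1, h2⟩, h3⟩; exact ⟨⟨h1, h2⟩, h3⟩
  rw [e] at h
  exact h.trans (le_max_left _ _)

/-- `ω(n)` as a sum over the primes up to `N` -/
theorem omega_eq {N n : ℕ} (h1 : 1 ≤ n) (h2 : n ≤ N) :
    (∑ p ∈ PN N, if p ∣ n then (1 : ℝ) else 0) = n.primeFactors.card := by
  rw [← sum_filter, sum_const, nsmul_eq_mul, mul_one]
  congr 2
  ext p
  simp only [PN, mem_filter, mem_Icc, Nat.mem_primeFactors]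
  constructor
  · rintro ⟨⟨⟨h3, h4⟩, h5⟩, h6⟩
    exact ⟨h5, h6, by omega⟩
  · rintro ⟨h3, h4, h5⟩
    exact ⟨⟨⟨h3.one_lt.le, (Nat.le_of_dvd h1 h4).trans h2⟩, h3⟩, h4⟩

/-- the second moment around any value -/
theorem second {N : ℕ} (μ : ℝ) :
    ∑ n ∈ Icc 1 N, ((n.primeFactors.card : ℝ) - μ) ^ 2 ≤
      6 * N * (∑ p ∈ PN N, (1 : ℝ) / p) + 2 * N * (∑ p ∈ PN N, (1 : ℝ) / p - μ) ^ 2 := by
  have hF : ∀ p ∈ PN N, p.Prime := fun p hp => (mem_filter.1 hp).2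
  have h := Pool.Agent.Helper480.E25.turan (PN N) hF N
  set S := ∑ p ∈ PN N, (1 : ℝ) / p with hS
  have hS0 : 0 ≤ S := sum_nonneg fun p _ => by positivity
  have hcard : ((PN N).card : ℝ) ≤ N := by
    have : (PN N).card ≤ (Icc 1 N).card := card_le_card (filter_subset _ _)
    rw [Nat.card_Icc, Nat.add_sub_cancel] at this
    exact_mod_cast this
  have h1 : ∑ m ∈ Icc 1 N, ((m.primeFactors.card : ℝ) - S) ^ 2 ≤ 3 * N * S := by
    have e : ∑ m ∈ Icc 1 N, ((m.primeFactors.card : ℝ) - S) ^ 2 =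
        ∑ m ∈ Icc 1 N, ((∑ p ∈ PN N, if p ∣ m then (1 : ℝ) else 0) - S) ^ 2 := by
      refine sum_congr rfl fun m hm => ?_
      rw [mem_Icc] at hm
      rw [omega_eq hm.1 hm.2]
    rw [e]
    nlinarith [mul_le_mul_of_nonneg_left hcard (by positivity : 0 ≤ 2 * S)]
  calc ∑ n ∈ Icc 1 N, ((n.primeFactors.card : ℝ) - μ) ^ 2
      ≤ ∑ n ∈ Icc 1 N, (2 * ((n.primeFactors.card : ℝ) - S) ^ 2 + 2 * (S - μ) ^ 2) := by
        refine sum_le_sum fun n _ => ?_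
        nlinarith [sq_nonneg (((n.primeFactors.card : ℝ) - S) - (S - μ))]
    _ = 2 * ∑ n ∈ Icc 1 N, ((n.primeFactors.card : ℝ) - S) ^ 2 + 2 * N * (S - μ) ^ 2 := by
        rw [sum_add_distrib, ← mul_sum, sum_const, Nat.card_Icc, Nat.add_sub_cancel, nsmul_eq_mul]
        ring
    _ ≤ _ := by linarith

/-- the second moment for `N ∈ {Y, 2 Y}` around `log log Y` -/
theorem second' : ∃ C : ℝ, 0 < C ∧ ∀ Y N : ℕ, 3 ≤ Y → (N = Y ∨ N = 2 * Y) →
    ∑ n ∈ Icc 1 N, ((n.primeFactors.card : ℝ) - Real.log (Real.log Y)) ^ 2 ≤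
      C * Y * (1 + Real.log (Real.log Y)) := by
  obtain ⟨C, hC0, hC⟩ := mertens
  refine ⟨12 * (2 + C) + 4 * (1 + C) ^ 2, by positivity, fun Y N hY hN => ?_⟩
  have hY3 : (3 : ℝ) ≤ Y := by exact_mod_cast hY
  have he : Real.exp 1 ≤ (Y : ℝ) := by
    have := Real.exp_one_lt_d9
    linarith
  have hl1 : 1 ≤ Real.log (Y : ℝ) := by
    have := Real.log_le_log (Real.exp_pos 1) he
    rwa [Real.log_exp] at this
  have hll : 0 ≤ Real.log (Real.log (Y : ℝ)) := Real.log_nonneg hl1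
  have hYN : Y ≤ N := by omega
  have hN2 : (N : ℝ) ≤ 2 * Y := by
    have : N ≤ 2 * Y := by omega
    exact_mod_cast this
  have hN0 : (0 : ℝ) ≤ N := Nat.cast_nonneg _
  have hYNr : (Y : ℝ) ≤ N := by exact_mod_cast hYN
  have hlogN : Real.log (N : ℝ) ≤ 2 * Real.log Y := by
    have h1 : Real.log (N : ℝ) ≤ Real.log (2 * Y) := Real.log_le_log (by linarith) hN2
    have h2 : Real.log (2 * Y) = Real.log 2 + Real.log (Y : ℝ) :=
      Real.log_mul (by norm_num) (by linarith)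
    have h3 : Real.log 2 ≤ Real.log (Y : ℝ) := Real.log_le_log (by norm_num) (by linarith)
    linarith
  have hll2 : Real.log (Real.log (N : ℝ)) ≤ 1 + Real.log (Real.log (Y : ℝ)) := by
    have h0 : 0 < Real.log (N : ℝ) := Real.log_pos (by linarith)
    have h1 : Real.log (Real.log (N : ℝ)) ≤ Real.log (2 * Real.log Y) := Real.log_le_log h0 hlogN
    have h2 : Real.log (2 * Real.log Y) = Real.log 2 + Real.log (Real.log (Y : ℝ)) :=
      Real.log_mul (by norm_num) (by linarith)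
    have h3 : Real.log 2 < 1 := by
      have := Real.log_two_lt_d9
      linarith
    linarith
  have hll3 : Real.log (Real.log (Y : ℝ)) ≤ Real.log (Real.log (N : ℝ)) :=
    Real.log_le_log (by linarith) (Real.log_le_log (by linarith) hYNr)
  have h := second (N := N) (Real.log (Real.log (Y : ℝ)))
  have hM := abs_le.1 (hC N (by omega))
  set S := ∑ p ∈ PN N, (1 : ℝ) / p with hS
  set l := Real.log (Real.log (Y : ℝ)) with hl
  have hS0 : 0 ≤ S := sum_nonneg fun p _ => by positivity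
  have h1 : S ≤ (2 + C) * (1 + l) := by nlinarith [hM.2]
  have h2 : (S - l) ^ 2 ≤ (1 + C) ^ 2 := by
    apply sq_le_sq'
    · linarith [hM.1]
    · linarith [hM.2]
  have h3 : (N : ℝ) * S ≤ 2 * Y * ((2 + C) * (1 + l)) := mul_le_mul hN2 h1 hS0 (by positivity)
  have h4 : (N : ℝ) * (S - l) ^ 2 ≤ 2 * Y * (1 + C) ^ 2 :=
    mul_le_mul hN2 h2 (sq_nonneg _) (by positivity)
  have h5 : 2 * Y * (1 + C) ^ 2 ≤ 2 * Y * (1 + C) ^ 2 * (1 + l) := by
    have : (0 : ℝ) ≤ 2 * Y * (1 + C) ^ 2 := by positivity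
    nlinarith
  nlinarith

/-- the sum of the three numbers of prime factors, minus three times `log log Y` -/
noncomputable def dev (Y : ℕ) (p : ℕ × ℕ) : ℝ :=
  ((p.1.primeFactors.card : ℝ) + p.2.primeFactors.card + (p.1 + p.2).primeFactors.card) -
    3 * Real.log (Real.log Y)

theorem dev_second : ∃ C : ℝ, 0 < C ∧ ∀ Y : ℕ, 3 ≤ Y →
    ∑ p ∈ Icc 1 Y ×ˢ Icc 1 Y, dev Y p ^ 2 ≤ C * Y ^ 2 * (1 + Real.log (Real.log Y)) := by
  obtain ⟨C, hC0, hC⟩ := second'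
  refine ⟨9 * C, by positivity, fun Y hY => ?_⟩
  set l := Real.log (Real.log (Y : ℝ)) with hl
  have hg : ∀ p : ℕ × ℕ, dev Y p ^ 2 ≤ 3 * ((p.1.primeFactors.card : ℝ) - l) ^ 2 +
      3 * ((p.2.primeFactors.card : ℝ) - l) ^ 2 +
      3 * (((p.1 + p.2).primeFactors.card : ℝ) - l) ^ 2 := by
    intro p
    unfold dev
    rw [← hl]
    nlinarith [sq_nonneg (((p.1.primeFactors.card : ℝ) - l) - ((p.2.primeFactors.card : ℝ) - l)),
      sq_nonneg (((p.1.primeFactors.card : ℝ) - l) - (((p.1 + p.2).primeFactors.card : ℝ) - l)),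
      sq_nonneg (((p.2.primeFactors.card : ℝ) - l) - (((p.1 + p.2).primeFactors.card : ℝ) - l))]
  have h1 := hC Y Y hY (Or.inl rfl)
  have h2 := hC Y (2 * Y) hY (Or.inr rfl)
  rw [← hl] at h1 h2
  have hcard : ((Icc 1 Y).card : ℝ) = Y := by rw [Nat.card_Icc, Nat.add_sub_cancel]
  have e1 : ∑ p ∈ Icc 1 Y ×ˢ Icc 1 Y, 3 * ((p.1.primeFactors.card : ℝ) - l) ^ 2 =
      3 * Y * ∑ n ∈ Icc 1 Y, ((n.primeFactors.card : ℝ) - l) ^ 2 := by
    rw [sum_product]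
    simp only [sum_const, nsmul_eq_mul, hcard]
    rw [← mul_sum, ← mul_sum]
    ring
  have e2 : ∑ p ∈ Icc 1 Y ×ˢ Icc 1 Y, 3 * ((p.2.primeFactors.card : ℝ) - l) ^ 2 =
      3 * Y * ∑ n ∈ Icc 1 Y, ((n.primeFactors.card : ℝ) - l) ^ 2 := by
    rw [sum_product]
    simp only [sum_const, nsmul_eq_mul, hcard, ← mul_sum]
    ring
  have e3 : ∑ p ∈ Icc 1 Y ×ˢ Icc 1 Y, 3 * (((p.1 + p.2).primeFactors.card : ℝ) - l) ^ 2 ≤
      3 * Y * ∑ n ∈ Icc 1 (2 * Y), ((n.primeFactors.card : ℝ) - l) ^ 2 := by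
    rw [sum_product]
    have h3 : ∀ a ∈ Icc 1 Y, ∑ b ∈ Icc 1 Y, 3 * (((a + b).primeFactors.card : ℝ) - l) ^ 2 ≤
        3 * ∑ n ∈ Icc 1 (2 * Y), ((n.primeFactors.card : ℝ) - l) ^ 2 := by
      intro a ha
      rw [mem_Icc] at ha
      rw [← mul_sum]
      refine mul_le_mul_of_nonneg_left ?_ (by norm_num)
      have e : ∑ b ∈ Icc 1 Y, (((a + b).primeFactors.card : ℝ) - l) ^ 2 =
          ∑ n ∈ (Icc 1 Y).image (fun b => a + b), ((n.primeFactors.card : ℝ) - l) ^ 2 := by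
        rw [sum_image]
        intro x _ y _ hxy
        simpa using hxy
      rw [e]
      refine sum_le_sum_of_subset_of_nonneg ?_ fun _ _ _ => sq_nonneg _
      intro n hn
      rw [mem_image] at hn
      obtain ⟨b, hb, rfl⟩ := hn
      rw [mem_Icc] at hb ⊢
      omega
    refine (sum_le_sum h3).trans (le_of_eq ?_)
    rw [sum_const, nsmul_eq_mul, hcard]
    ring
  calc ∑ p ∈ Icc 1 Y ×ˢ Icc 1 Y, dev Y p ^ 2 ≤ ∑ p ∈ Icc 1 Y ×ˢ Icc 1 Y,
        (3 * ((p.1.primeFactors.card : ℝ) - l) ^ 2 + 3 * ((p.2.primeFactors.card : ℝ) - l) ^ 2 +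
          3 * (((p.1 + p.2).primeFactors.card : ℝ) - l) ^ 2) := sum_le_sum fun p _ => hg p
    _ ≤ 3 * Y * (C * Y * (1 + l)) + 3 * Y * (C * Y * (1 + l)) + 3 * Y * (C * Y * (1 + l)) := by
        rw [sum_add_distrib, sum_add_distrib, e1, e2]
        have hY0 : (0 : ℝ) ≤ 3 * Y := by positivity
        have a1 := mul_le_mul_of_nonneg_left h1 hY0
        have a2 := mul_le_mul_of_nonneg_left h2 hY0
        linarith
    _ = 9 * C * Y ^ 2 * (1 + l) := by ring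

/-- **Turán's inequality for pairs.** -/
theorem pair_count : ∃ C : ℝ, 0 < C ∧ ∀ Y : ℕ, 3 ≤ Y → ∀ T : ℝ, 0 < T → ∀ E : Set (ℕ × ℕ),
    (∀ p ∈ E, 1 ≤ p.1 ∧ p.1 ≤ Y ∧ 1 ≤ p.2 ∧ p.2 ≤ Y ∧
      T * Real.sqrt (1 + Real.log (Real.log Y)) ≤ |dev Y p|) →
    E.Finite ∧ (E.ncard : ℝ) ≤ C * Y ^ 2 / T ^ 2 := by
  classical
  obtain ⟨C, hC0, hC⟩ := dev_second
  refine ⟨C, hC0, fun Y hY T hT E hE => ?_⟩
  have hY3 : (3 : ℝ) ≤ Y := by exact_mod_cast hY
  have he : Real.exp 1 ≤ (Y : ℝ) := by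
    have := Real.exp_one_lt_d9
    linarith
  have hl1 : 1 ≤ Real.log (Y : ℝ) := by
    have := Real.log_le_log (Real.exp_pos 1) he
    rwa [Real.log_exp] at this
  have hll : 0 ≤ Real.log (Real.log (Y : ℝ)) := Real.log_nonneg hl1
  have hsub : E ⊆ ((Icc 1 Y ×ˢ Icc 1 Y : Finset (ℕ × ℕ)) : Set (ℕ × ℕ)) := by
    intro p hp
    obtain ⟨h1, h2, h3, h4, -⟩ := hE p hp
    rw [mem_coe, mem_product, mem_Icc, mem_Icc]
    exact ⟨⟨h1, h2⟩, h3, h4⟩
  have hfin : E.Finite := (Finset.finite_toSet _).subset hsub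
  refine ⟨hfin, ?_⟩
  rw [Set.ncard_eq_toFinset_card E hfin]
  have h := hC Y hY
  set l := Real.log (Real.log (Y : ℝ)) with hl
  have h1 : (hfin.toFinset.card : ℝ) * (T ^ 2 * (1 + l)) ≤ C * Y ^ 2 * (1 + l) := by
    refine le_trans ?_ h
    calc (hfin.toFinset.card : ℝ) * (T ^ 2 * (1 + l)) = ∑ p ∈ hfin.toFinset, T ^ 2 * (1 + l) := by
          rw [sum_const, nsmul_eq_mul]
      _ ≤ ∑ p ∈ hfin.toFinset, dev Y p ^ 2 := by
          refine sum_le_sum fun p hp => ?_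
          rw [Set.Finite.mem_toFinset] at hp
          obtain ⟨-, -, -, -, h5⟩ := hE p hp
          have h6 : (T * Real.sqrt (1 + l)) ^ 2 ≤ |dev Y p| ^ 2 := by
            gcongr
          rw [sq_abs, mul_pow, Real.sq_sqrt (by linarith)] at h6
          exact h6
      _ ≤ ∑ p ∈ Icc 1 Y ×ˢ Icc 1 Y, dev Y p ^ 2 := by
          refine sum_le_sum_of_subset_of_nonneg ?_ fun _ _ _ => sq_nonneg _
          intro p hp
          rw [Set.Finite.mem_toFinset] at hp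
          exact_mod_cast hsub hp
  have h2 : (0 : ℝ) < 1 + l := by linarith
  have h3 : (hfin.toFinset.card : ℝ) * T ^ 2 ≤ C * Y ^ 2 := by
    have : ((hfin.toFinset.card : ℝ) * T ^ 2) * (1 + l) ≤ (C * Y ^ 2) * (1 + l) := by linarith
    exact le_of_mul_le_mul_right this h2
  rw [le_div_iff₀ (by positivity)]
  exact h3

end Pool.Agent.V8H4.SH
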