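import Pool.Agent.V8H4.SH.Turan
import Pool.Agent.Results.MP_7aad9f_nt.JointLaw

/-!
# The second order term in the relation between `c` and `H (abc)`

For almost all triples, ordered by the radical `γ` of `abc`, one has
`3 log c = log H + 3 (log log γ) ^ 2 + O (ψ (log log γ) ^ (3/2))`.
-/

set_option autoImplicit false

open Filter Topology Finset

namespace Pool.Agent.V8H4.SH

open Pool.Agent.Results.MP_7aad9f_nt.JointLaw

/-- `ω(abc)` for a triple -/
def om (t : ℕ × ℕ) : ℕ := (t.1 * t.2 * (t.1 + t.2)).primeFactors.card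

theorem om_eq {t : ℕ × ℕ} (ht : IsTriple t) :
    om t = t.1.primeFactors.card + t.2.primeFactors.card + (t.1 + t.2).primeFactors.card := by
  obtain ⟨h1, h2, h3⟩ := ht
  have hc1 : Nat.Coprime t.1 (t.1 + t.2) := by simpa using h3
  have hc2 : Nat.Coprime t.2 (t.1 + t.2) := by simpa using h3.symm
  unfold om
  rw [Nat.Coprime.primeFactors_mul (Nat.Coprime.mul_left hc1 hc2), Finset.card_union_of_disjoint
    (Nat.Coprime.disjoint_primeFactors (Nat.Coprime.mul_left hc1 hc2)),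
    Nat.Coprime.primeFactors_mul h3, Finset.card_union_of_disjoint
    (Nat.Coprime.disjoint_primeFactors h3)]

theorem radical_pos (n : ℕ) : 0 < radical n :=
  Finset.prod_pos fun p hp => (Nat.prime_of_mem_primeFactors hp).pos

theorem rad3_le {t : ℕ × ℕ} (ht : IsTriple t) : rad3 t ≤ (t.1 + t.2) ^ 3 := by
  obtain ⟨h1, h2, -⟩ := ht
  have h3 : 0 < t.1 * t.2 * (t.1 + t.2) := by
    have : 0 < t.2 := by omega
    positivity
  have h4 : rad3 t ∣ t.1 * t.2 * (t.1 + t.2) := Nat.prod_primeFactors_dvd _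
  refine (Nat.le_of_dvd h3 h4).trans ?_
  calc t.1 * t.2 * (t.1 + t.2) ≤ (t.1 + t.2) * (t.1 + t.2) * (t.1 + t.2) := by
        gcongr <;> omega
    _ = (t.1 + t.2) ^ 3 := by ring

/-- the deviation `3 log c - log H - 3 (log log γ) ^ 2`, with `log H = log γ - ω log log γ` -/
noncomputable def dv (t : ℕ × ℕ) : ℝ :=
  3 * Real.log ((t.1 + t.2 : ℕ) : ℝ) -
    (Real.log (rad3 t : ℝ) - om t * Real.log (Real.log (rad3 t : ℝ))) -
    3 * Real.log (Real.log (rad3 t : ℝ)) ^ 2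

/-- the exceptional triples -/
def bad (ψ : ℕ → ℝ) (X : ℝ) : Set (ℕ × ℕ) :=
  {t | t ∈ triples X ∧ ψ (rad3 t) * Real.log (Real.log (rad3 t : ℝ)) ^ ((3 : ℝ) / 2) < |dv t|}

/-- the local step: a bad triple which is of height at most `L γ ^ (1/3)` has an unusual number
of prime factors -/
theorem step {L M X : ℝ} {Y : ℕ} {t : ℕ × ℕ} (hL : 1 ≤ L) (hM : 1 ≤ M)
    (hY1 : X ^ ((1 : ℝ) / 3) ≤ Y) (hY2 : (Y : ℝ) ≤ X) (hX : Real.exp (Real.exp 4) ≤ X)
    (ht : IsTriple t) (htX : (rad3 t : ℝ) ≤ X) (htX2 : X ^ ((1 : ℝ) / 2) ≤ rad3 t)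
    (hc : ((t.1 + t.2 : ℕ) : ℝ) ≤ L * (rad3 t : ℝ) ^ ((1 : ℝ) / 3))
    (hMX : 3 * Real.log L + 10 ≤ M * Real.sqrt (Real.log (Real.log X)) / 8)
    (hb : 4 * M * Real.log (Real.log (rad3 t : ℝ)) ^ ((3 : ℝ) / 2) < |dv t|) :
    M * Real.sqrt (1 + Real.log (Real.log Y)) ≤ |dev Y t| := by
  have hX0 : 0 < X := (Real.exp_pos _).trans_le hX
  have hlX : Real.exp 4 ≤ Real.log X := by
    have := Real.log_le_log (Real.exp_pos _) hX
    rwa [Real.log_exp] at this
  have hlX0 : 0 < Real.log X := (Real.exp_pos _).trans_le hlX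
  have hllX : 4 ≤ Real.log (Real.log X) := by
    have := Real.log_le_log (Real.exp_pos _) hlX
    rwa [Real.log_exp] at this
  set g : ℝ := (rad3 t : ℝ) with hg
  have hg0 : 0 < g := by
    have := radical_pos (t.1 * t.2 * (t.1 + t.2))
    rw [hg]
    exact_mod_cast this
  have hlg1 : Real.log X / 2 ≤ Real.log g := by
    have := Real.log_le_log (by positivity) htX2
    rw [Real.log_rpow hX0] at this
    linarith
  have hlg2 : Real.log g ≤ Real.log X := Real.log_le_log hg0 htX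
  have hlg0 : 0 < Real.log g := by linarith
  set l : ℝ := Real.log (Real.log g) with hl
  set lX : ℝ := Real.log (Real.log X) with hlXd
  have hl2 : l ≤ lX := Real.log_le_log hlg0 hlg2
  have hl1 : lX - 1 ≤ l := by
    have h1 : Real.log (Real.log X / 2) ≤ l := Real.log_le_log (by positivity) hlg1
    rw [Real.log_div hlX0.ne' (by norm_num)] at h1
    have h2 : Real.log 2 < 1 := by
      have := Real.log_two_lt_d9
      linarith
    linarith
  have hl3 : 3 ≤ l := by linarith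
  have hY0 : (0 : ℝ) < Y := lt_of_lt_of_le (by positivity) hY1
  have hlY1 : Real.log X / 3 ≤ Real.log Y := by
    have := Real.log_le_log (by positivity) hY1
    rw [Real.log_rpow hX0] at this
    linarith
  have hlY2 : Real.log Y ≤ Real.log X := Real.log_le_log hY0 hY2
  have hlY0 : 0 < Real.log (Y : ℝ) := by linarith
  set lY : ℝ := Real.log (Real.log Y) with hlYd
  have hlY3 : lY ≤ lX := Real.log_le_log hlY0 hlY2
  have hlY4 : lX - 2 ≤ lY := by
    have h1 : Real.log (Real.log X / 3) ≤ lY := Real.log_le_log (by positivity) hlY1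
    rw [Real.log_div hlX0.ne' (by norm_num)] at h1
    have h2 : Real.log 3 < 2 := by
      have h3 : Real.log 3 < Real.log (Real.exp 2) := by
        apply Real.log_lt_log (by norm_num)
        have h4 : (2.7 : ℝ) < Real.exp 1 := by
          have := Real.exp_one_gt_d9
          linarith
        have h5 : Real.exp 2 = Real.exp 1 * Real.exp 1 := by rw [← Real.exp_add]; norm_num
        nlinarith
      rwa [Real.log_exp] at h3
    linarith
  -- the difference `3 log c - log γ`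
  have hc0 : (0 : ℝ) < ((t.1 + t.2 : ℕ) : ℝ) := by
    have := ht.1
    have : 0 < t.1 + t.2 := by omega
    exact_mod_cast this
  have hL0 : 0 < L := by linarith
  have hlogL : 0 ≤ Real.log L := Real.log_nonneg hL
  have hd1 : 0 ≤ 3 * Real.log ((t.1 + t.2 : ℕ) : ℝ) - Real.log g := by
    have h1 : g ≤ ((t.1 + t.2 : ℕ) : ℝ) ^ 3 := by
      rw [hg]
      exact_mod_cast rad3_le ht
    have h2 := Real.log_le_log hg0 h1
    rw [Real.log_pow] at h2
    push_cast at h2 ⊢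
    linarith
  have hd2 : 3 * Real.log ((t.1 + t.2 : ℕ) : ℝ) - Real.log g ≤ 3 * Real.log L := by
    have h1 := Real.log_le_log hc0 hc
    rw [Real.log_mul hL0.ne' (by positivity), Real.log_rpow hg0] at h1
    linarith
  set w : ℝ := (om t : ℝ) with hw
  have hdv : dv t = (3 * Real.log ((t.1 + t.2 : ℕ) : ℝ) - Real.log g) + l * (w - 3 * l) := by
    unfold dv
    rw [← hg, ← hl, ← hw]
    ring
  have habs : |dv t| ≤ 3 * Real.log L + l * |w - 3 * l| := by
    rw [hdv]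
    refine (abs_add_le _ _).trans ?_
    rw [abs_of_nonneg hd1, abs_mul, abs_of_nonneg (by linarith : 0 ≤ l)]
    linarith
  have hdev : dev Y t = w - 3 * lY := by
    unfold dev
    rw [hw, om_eq ht, ← hlYd]
    push_cast
    ring
  have hsq : l ^ ((3 : ℝ) / 2) = l * Real.sqrt l := by
    rw [Real.sqrt_eq_rpow, show (3 : ℝ) / 2 = 1 + 1 / 2 by norm_num, Real.rpow_add (by linarith),
      Real.rpow_one]
  rw [hsq] at hb
  have h1 : 4 * M * (l * Real.sqrt l) < 3 * Real.log L + l * |w - 3 * l| := lt_of_lt_of_le hb habs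
  have h2 : 3 * Real.log L ≤ l * (3 * Real.log L) := by nlinarith
  have h3 : 4 * M * Real.sqrt l - 3 * Real.log L < |w - 3 * l| := by
    have h4 : l * (4 * M * Real.sqrt l - 3 * Real.log L) < l * |w - 3 * l| := by nlinarith
    exact lt_of_mul_lt_mul_left h4 (by linarith)
  have h5 : |w - 3 * l| ≤ |dev Y t| + 6 := by
    rw [hdev]
    have : w - 3 * l = (w - 3 * lY) + 3 * (lY - l) := by ring
    rw [this]
    refine (abs_add_le _ _).trans ?_
    have h6 : |3 * (lY - l)| ≤ 6 := by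
      rw [abs_le]
      constructor <;> linarith
    linarith
  -- square roots
  have hs1 : Real.sqrt lX ≤ 2 * Real.sqrt l := by
    have : Real.sqrt lX ≤ Real.sqrt (4 * l) := Real.sqrt_le_sqrt (by linarith)
    rw [Real.sqrt_mul (by norm_num), show (4 : ℝ) = 2 ^ 2 by norm_num,
      Real.sqrt_sq (by norm_num)] at this
    exact this
  have hs2 : Real.sqrt (1 + lY) ≤ 2 * Real.sqrt l := by
    have : Real.sqrt (1 + lY) ≤ Real.sqrt (4 * l) := Real.sqrt_le_sqrt (by linarith)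
    rw [Real.sqrt_mul (by norm_num), show (4 : ℝ) = 2 ^ 2 by norm_num,
      Real.sqrt_sq (by norm_num)] at this
    exact this
  have h7 : 3 * Real.log L + 10 ≤ M * Real.sqrt l := by
    have h8 : M * Real.sqrt lX ≤ M * (2 * Real.sqrt l) := mul_le_mul_of_nonneg_left hs1 (by linarith)
    have h9 : 0 ≤ M * Real.sqrt l := mul_nonneg (by linarith) (Real.sqrt_nonneg _)
    linarith
  have h8 : M * Real.sqrt (1 + lY) ≤ M * (2 * Real.sqrt l) :=
    mul_le_mul_of_nonneg_left hs2 (by linarith)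
  linarith

/-- **The main estimate.** -/
theorem bad_zero {ψ : ℕ → ℝ} (hψ : Tendsto ψ atTop atTop) :
    Tendsto (fun X : ℝ => ((bad ψ X).ncard : ℝ) / X ^ ((2 : ℝ) / 3)) atTop (𝓝 0) := by
  obtain ⟨c₀, κ, hc₀, hκ, -, -, hfin, htot, -, -, hdist, hdlim, -⟩ :=
    Pool.Agent.Results.MP_7aad9f_nt.JointLaw.result
  obtain ⟨C, hC0, hC⟩ := pair_count
  rw [Metric.tendsto_nhds]
  intro ε hε
  -- the level
  obtain ⟨L, hL1, hL2⟩ : ∃ L : ℝ, 1 ≤ L ∧ κ - c₀ * distr L < ε / 4 := by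
    have h1 := (Metric.tendsto_nhds.1 hdlim) (ε / 4) (by positivity)
    obtain ⟨L, h2, h3⟩ := (h1.and (eventually_ge_atTop 1)).exists
    refine ⟨L, h3, ?_⟩
    rw [Real.dist_eq, abs_lt] at h2
    linarith [h2.1]
  obtain ⟨M, hM1, hM2⟩ : ∃ M : ℝ, 1 ≤ M ∧ 4 * C * L ^ 2 / M ^ 2 < ε / 4 := by
    have h1 : Tendsto (fun M : ℝ => 4 * C * L ^ 2 / M ^ 2) atTop (𝓝 0) :=
      tendsto_const_nhds.div_atTop (tendsto_pow_atTop (by norm_num))
    obtain ⟨M, h2, h3⟩ := ((h1.eventually (gt_mem_nhds (by positivity : (0:ℝ) < ε / 4))).and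
      (eventually_ge_atTop 1)).exists
    exact ⟨M, h3, h2⟩
  obtain ⟨R0, hR0⟩ := Filter.eventually_atTop.1 (hψ.eventually (eventually_ge_atTop (4 * M)))
  -- the triples of large height
  have hd := htot.sub (hdist L).2
  have e1 : ∀ᶠ X : ℝ in atTop, ((triples X).ncard : ℝ) / X ^ ((2 : ℝ) / 3) -
      (({t | t ∈ triples X ∧ ((t.1 + t.2 : ℕ) : ℝ) ≤ L * (rad3 t : ℝ) ^ ((1 : ℝ) / 3)} :
        Set (ℕ × ℕ)).ncard : ℝ) / X ^ ((2 : ℝ) / 3) < ε / 4 :=
    hd.eventually (gt_mem_nhds hL2)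
  -- the triples of small radical
  have e2 : ∀ᶠ X : ℝ in atTop, ((triples (X ^ ((1 : ℝ) / 2))).ncard : ℝ) / X ^ ((2 : ℝ) / 3) <
      ε / 4 := by
    have h1 : Tendsto (fun X : ℝ => X ^ ((1 : ℝ) / 2)) atTop atTop :=
      tendsto_rpow_atTop (by norm_num)
    have h2 := htot.comp h1
    have h3 : Tendsto (fun X : ℝ => X ^ (-((1 : ℝ) / 3))) atTop (𝓝 0) :=
      tendsto_rpow_neg_atTop (by norm_num)
    have h4 := h2.mul h3
    rw [mul_zero] at h4
    have h5 : ∀ᶠ X : ℝ in atTop, ((triples (X ^ ((1 : ℝ) / 2))).ncard : ℝ) / X ^ ((2 : ℝ) / 3) =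
        ((fun X : ℝ => ((triples X).ncard : ℝ) / X ^ ((2 : ℝ) / 3)) ∘
          fun X : ℝ => X ^ ((1 : ℝ) / 2)) X * X ^ (-((1 : ℝ) / 3)) := by
      filter_upwards [eventually_gt_atTop 0] with X hX
      simp only [Function.comp]
      rw [← Real.rpow_mul hX.le, div_mul_eq_mul_div, div_eq_div_iff (by positivity) (by positivity),
        mul_assoc, ← Real.rpow_add hX]
      norm_num
    have h6 := h4.eventually (gt_mem_nhds (by positivity : (0:ℝ) < ε / 4))
    filter_upwards [h5, h6] with X h7 h8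
    rw [h7]
    exact h8
  -- conditions on `X`
  have e3 : ∀ᶠ X : ℝ in atTop, 3 * Real.log L + 10 ≤ M * Real.sqrt (Real.log (Real.log X)) / 8 := by
    have h1 : Tendsto (fun X : ℝ => M * Real.sqrt (Real.log (Real.log X)) / 8) atTop atTop := by
      have h2 : Tendsto (fun X : ℝ => Real.sqrt (Real.log (Real.log X))) atTop atTop :=
        Real.tendsto_sqrt_atTop.comp (Real.tendsto_log_atTop.comp Real.tendsto_log_atTop)
      exact (h2.const_mul_atTop (by linarith)).atTop_div_const (by norm_num)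
    exact h1.eventually (eventually_ge_atTop _)
  have e4 : ∀ᶠ X : ℝ in atTop, L * X ^ ((1 : ℝ) / 3) + 1 ≤ X := by
    have h1 : Tendsto (fun X : ℝ => X ^ ((2 : ℝ) / 3)) atTop atTop :=
      tendsto_rpow_atTop (by norm_num)
    filter_upwards [h1.eventually (eventually_ge_atTop (L + 1)), eventually_ge_atTop 1]
      with X h2 h3
    have hX0 : 0 < X := by linarith
    have h4 : X = X ^ ((1 : ℝ) / 3) * X ^ ((2 : ℝ) / 3) := by
      rw [← Real.rpow_add hX0]
      norm_num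
    have h5 : 1 ≤ X ^ ((1 : ℝ) / 3) := Real.one_le_rpow h3 (by norm_num)
    nlinarith
  have e5 : ∀ᶠ X : ℝ in atTop, (R0 : ℝ) ≤ X ^ ((1 : ℝ) / 2) :=
    (tendsto_rpow_atTop (by norm_num : (0 : ℝ) < 1 / 2)).eventually (eventually_ge_atTop _)
  filter_upwards [e1, e2, e3, e4, e5, eventually_ge_atTop (Real.exp (Real.exp 4)),
    eventually_ge_atTop 27] with X h1 h2 h3 h4 h5 h6 h27
  have hX0 : 0 < X := (Real.exp_pos _).trans_le h6
  obtain ⟨Y, hY⟩ : ∃ Y : ℕ, Y = ⌈L * X ^ ((1 : ℝ) / 3)⌉₊ := ⟨_, rfl⟩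
  have hX3 : (3 : ℝ) ≤ X ^ ((1 : ℝ) / 3) := by
    have h7 : ((27 : ℝ)) ^ ((1 : ℝ) / 3) ≤ X ^ ((1 : ℝ) / 3) :=
      Real.rpow_le_rpow (by norm_num) h27 (by norm_num)
    have h8 : (27 : ℝ) ^ ((1 : ℝ) / 3) = 3 := by
      rw [show (27 : ℝ) = 3 ^ (3 : ℝ) by norm_num, ← Real.rpow_mul (by norm_num)]
      norm_num
    rw [h8] at h7
    exact h7
  have hLX : X ^ ((1 : ℝ) / 3) ≤ L * X ^ ((1 : ℝ) / 3) := le_mul_of_one_le_left (by positivity) hL1
  have hY1 : L * X ^ ((1 : ℝ) / 3) ≤ Y := by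
    rw [hY]
    exact Nat.le_ceil _
  have hY2 : (Y : ℝ) ≤ L * X ^ ((1 : ℝ) / 3) + 1 := by
    rw [hY]
    exact (Nat.ceil_lt_add_one (by positivity)).le
  have hY3 : 3 ≤ Y := by
    have : (3 : ℝ) ≤ Y := hX3.trans (hLX.trans hY1)
    exact_mod_cast this
  -- the cover
  set A : Set (ℕ × ℕ) := {t | t ∈ triples X ∧ ((t.1 + t.2 : ℕ) : ℝ) ≤
    L * (rad3 t : ℝ) ^ ((1 : ℝ) / 3)} with hA
  set E : Set (ℕ × ℕ) := {t | t ∈ bad ψ X ∧ t ∈ A ∧ X ^ ((1 : ℝ) / 2) ≤ rad3 t} with hE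
  have hcov : bad ψ X ⊆ (triples X \ A) ∪ (triples (X ^ ((1 : ℝ) / 2)) ∪ E) := by
    intro t ht
    by_cases hA' : t ∈ A
    · right
      rcases le_total (X ^ ((1 : ℝ) / 2)) (rad3 t : ℝ) with h | h
      · exact Or.inr ⟨ht, hA', h⟩
      · exact Or.inl ⟨ht.1.1, h⟩
    · exact Or.inl ⟨ht.1, hA'⟩
  have hEc := hC Y hY3 M (by linarith) E (by
    rintro t ⟨⟨ht, hbad⟩, ⟨-, hAc⟩, hr⟩
    have hYX : (Y : ℝ) ≤ X := hY2.trans h4
    have hcY : ((t.1 + t.2 : ℕ) : ℝ) ≤ Y := by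
      refine hAc.trans (le_trans ?_ hY1)
      have : (rad3 t : ℝ) ^ ((1 : ℝ) / 3) ≤ X ^ ((1 : ℝ) / 3) :=
        Real.rpow_le_rpow (Nat.cast_nonneg _) ht.2 (by norm_num)
      exact mul_le_mul_of_nonneg_left this (by linarith)
    have hcY' : t.1 + t.2 ≤ Y := by exact_mod_cast hcY
    have ht1 := ht.1.1
    have ht2 := ht.1.2.1
    refine ⟨by omega, by omega, by omega, by omega, ?_⟩
    refine step hL1 hM1 (hLX.trans hY1) hYX h6 ht.1 ht.2 hr hAc h3 ?_
    refine lt_of_le_of_lt ?_ hbad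
    have hR : R0 ≤ rad3 t := by
      have : (R0 : ℝ) ≤ rad3 t := h5.trans hr
      exact_mod_cast this
    have hψ4 := hR0 _ hR
    have hpos : 0 ≤ Real.log (Real.log (rad3 t : ℝ)) ^ ((3 : ℝ) / 2) := by
      apply Real.rpow_nonneg
      apply Real.log_nonneg
      have h7 : Real.log X / 2 ≤ Real.log (rad3 t : ℝ) := by
        have := Real.log_le_log (by positivity) hr
        rw [Real.log_rpow hX0] at this
        linarith
      have h8 : Real.exp 4 ≤ Real.log X := by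
        have := Real.log_le_log (Real.exp_pos _) h6
        rwa [Real.log_exp] at this
      have h9 := Real.add_one_le_exp (4 : ℝ)
      linarith
    exact mul_le_mul_of_nonneg_right hψ4 hpos)
  have hfX := hfin X
  have hA1 : ((triples X \ A).ncard : ℝ) = ((triples X).ncard : ℝ) - (A.ncard : ℝ) := by
    have hsub : A ⊆ triples X := fun t ht => ht.1
    have := Set.ncard_sdiff_add_ncard_of_subset hsub hfX
    have h7 : ((triples X \ A).ncard : ℝ) + (A.ncard : ℝ) = ((triples X).ncard : ℝ) := by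
      exact_mod_cast this
    linarith
  have hcard : ((bad ψ X).ncard : ℝ) ≤ ((triples X).ncard : ℝ) - (A.ncard : ℝ) +
      ((triples (X ^ ((1 : ℝ) / 2))).ncard : ℝ) + (E.ncard : ℝ) := by
    have h7 := Set.ncard_le_ncard hcov ((hfX.subset Set.sdiff_subset).union
      ((hfin _).union hEc.1))
    have h8 := Set.ncard_union_le (triples X \ A) (triples (X ^ ((1 : ℝ) / 2)) ∪ E)
    have h9 := Set.ncard_union_le (triples (X ^ ((1 : ℝ) / 2))) E
    have h10 : ((bad ψ X).ncard : ℝ) ≤ ((triples X \ A).ncard : ℝ) +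
        (((triples (X ^ ((1 : ℝ) / 2))).ncard : ℝ) + (E.ncard : ℝ)) := by
      exact_mod_cast h7.trans (h8.trans (Nat.add_le_add_left h9 _))
    rw [hA1] at h10
    linarith
  have hXp : (0 : ℝ) < X ^ ((2 : ℝ) / 3) := by positivity
  have hE2 : (E.ncard : ℝ) / X ^ ((2 : ℝ) / 3) < ε / 4 := by
    refine lt_of_le_of_lt ?_ hM2
    rw [div_le_iff₀ hXp]
    refine hEc.2.trans ?_
    have h7 : (Y : ℝ) ≤ 2 * L * X ^ ((1 : ℝ) / 3) := by
      have : (1 : ℝ) ≤ L * X ^ ((1 : ℝ) / 3) := by linarith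
      linarith
    have h8 : (Y : ℝ) ^ 2 ≤ 4 * L ^ 2 * X ^ ((2 : ℝ) / 3) := by
      calc (Y : ℝ) ^ 2 ≤ (2 * L * X ^ ((1 : ℝ) / 3)) ^ 2 := by gcongr
        _ = 4 * L ^ 2 * (X ^ ((1 : ℝ) / 3)) ^ 2 := by ring
        _ = 4 * L ^ 2 * X ^ ((2 : ℝ) / 3) := by
            rw [← Real.rpow_natCast (X ^ ((1 : ℝ) / 3)), ← Real.rpow_mul hX0.le]
            norm_num
    calc C * (Y : ℝ) ^ 2 / M ^ 2 ≤ C * (4 * L ^ 2 * X ^ ((2 : ℝ) / 3)) / M ^ 2 := by gcongr
      _ = 4 * C * L ^ 2 / M ^ 2 * X ^ ((2 : ℝ) / 3) := by ring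
  have hfinal : ((bad ψ X).ncard : ℝ) / X ^ ((2 : ℝ) / 3) < ε := by
    have h7 : ((bad ψ X).ncard : ℝ) / X ^ ((2 : ℝ) / 3) ≤
        (((triples X).ncard : ℝ) / X ^ ((2 : ℝ) / 3) - (A.ncard : ℝ) / X ^ ((2 : ℝ) / 3)) +
        ((triples (X ^ ((1 : ℝ) / 2))).ncard : ℝ) / X ^ ((2 : ℝ) / 3) +
        (E.ncard : ℝ) / X ^ ((2 : ℝ) / 3) := by
      rw [← sub_div, ← add_div, ← add_div]
      exact div_le_div_of_nonneg_right hcard hXp.le
    linarith
  rw [Real.dist_eq, sub_zero, abs_of_nonneg (by positivity)]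
  exact hfinal

end Pool.Agent.V8H4.SH
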